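import Pool.Agent.H786R3.CH8

set_option autoImplicit false

namespace Pool.Agent.Results.MP_1e8505_an.LatShift

variable {H : Type*} [NormedAddCommGroup H] [InnerProductSpace ℂ H]

/-- The closed invariant subspaces of `A`. -/
def Lat (A : H →L[ℂ] H) : Set (Submodule ℂ H) :=
  {M | IsClosed (M : Set H) ∧ ∀ x ∈ M, A x ∈ M}

/-- The closed linear span of the basis vectors with index at least `k`. -/
noncomputable def Mk (b : HilbertBasis ℤ ℂ H) (k : ℤ) : Submodule ℂ H :=
  (Submodule.span ℂ (b '' Set.Ici k)).topologicalClosure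

/-- `A` is the weighted shift sending `b n` to `2 ^ (-|n|)` times `b (n + 1)`. -/
def IsShift (b : HilbertBasis ℤ ℂ H) (A : H →L[ℂ] H) : Prop :=
  ∀ n : ℤ, A (b n) = (2⁻¹ : ℂ) ^ n.natAbs • b (n + 1)

open H786R3.CH

theorem mem_Mk (b : HilbertBasis ℤ ℂ H) (k : ℤ) (x : H) :
    x ∈ Mk b k ↔ ∀ n < k, b.repr x n = 0 := by
  constructor
  · intro hx
    have hcl : IsClosed (((Q k).comap b.repr.toLinearEquiv.toLinearMap : Submodule ℂ H) : Set H) :=
      (Q_closed k).preimage b.repr.continuous
    have hle : Mk b k ≤ (Q k).comap b.repr.toLinearEquiv.toLinearMap := by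
      apply Submodule.topologicalClosure_minimal _ _ hcl
      rw [Submodule.span_le]
      rintro y ⟨n, hn, rfl⟩
      intro m hm
      have : b.repr (b n) m = 0 := by
        rw [b.repr_self, ← H786R3.CH.e, e_apply, if_neg]
        have := Set.mem_Ici.mp hn
        omega
      exact this
    exact hle hx
  · intro hx
    have h1 := b.hasSum_repr x
    have hcl : IsClosed (Mk b k : Set H) := Submodule.isClosed_topologicalClosure _
    refine hcl.mem_of_tendsto h1 (Filter.Eventually.of_forall (fun s => ?_))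
    refine Submodule.sum_mem _ (fun n _ => ?_)
    by_cases hn : n < k
    · rw [hx n hn, zero_smul]
      exact Submodule.zero_mem _
    · refine Submodule.smul_mem _ _ ?_
      exact Submodule.le_topologicalClosure _
        (Submodule.subset_span ⟨n, Set.mem_Ici.mpr (by omega), rfl⟩)

/-- The shift on `H`. -/
noncomputable def WH (b : HilbertBasis ℤ ℂ H) : H →L[ℂ] H :=
  (b.repr.symm.toContinuousLinearEquiv : lp (fun _ : ℤ => ℂ) 2 →L[ℂ] H) ∘L
    (W ∘L (b.repr.toContinuousLinearEquiv : H →L[ℂ] lp (fun _ : ℤ => ℂ) 2))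

theorem WH_apply (b : HilbertBasis ℤ ℂ H) (x : H) : WH b x = b.repr.symm (W (b.repr x)) := rfl

theorem WH_shift (b : HilbertBasis ℤ ℂ H) : IsShift b (WH b) := by
  intro n
  rw [WH_apply, b.repr_self, ← H786R3.CH.e, W_e, map_smul, H786R3.CH.e, b.repr_symm_single]

theorem comap_mem (b : HilbertBasis ℤ ℂ H) {M : Submodule ℂ (lp (fun _ : ℤ => ℂ) 2)}
    (h1 : IsClosed (M : Set (lp (fun _ : ℤ => ℂ) 2))) (h2 : ∀ x ∈ M, W x ∈ M) :
    M.comap b.repr.toLinearEquiv.toLinearMap ∈ Lat (WH b) := by
  refine ⟨h1.preimage b.repr.continuous, fun x hx => ?_⟩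
  have h3 := h2 _ hx
  change b.repr (WH b x) ∈ M
  rw [WH_apply, LinearIsometryEquiv.apply_symm_apply]
  exact h3

theorem comap_symm_mem (b : HilbertBasis ℤ ℂ H) {N : Submodule ℂ H} (h : N ∈ Lat (WH b)) :
    IsClosed ((N.comap b.repr.symm.toLinearEquiv.toLinearMap :
      Submodule ℂ (lp (fun _ : ℤ => ℂ) 2)) : Set (lp (fun _ : ℤ => ℂ) 2)) ∧
    ∀ x ∈ N.comap b.repr.symm.toLinearEquiv.toLinearMap,
      W x ∈ N.comap b.repr.symm.toLinearEquiv.toLinearMap := by
  refine ⟨h.1.preimage b.repr.symm.continuous, fun x hx => ?_⟩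
  have h3 := h.2 _ hx
  change b.repr.symm (W x) ∈ N
  change WH b (b.repr.symm x) ∈ N at h3
  rw [WH_apply, LinearIsometryEquiv.apply_symm_apply] at h3
  exact h3

/-- Transfer of the lattice. -/
noncomputable def transfer (b : HilbertBasis ℤ ℂ H) : LatW ≃o Lat (WH b) where
  toFun M := ⟨M.1.comap b.repr.toLinearEquiv.toLinearMap, comap_mem b M.2.1 M.2.2⟩
  invFun N := ⟨N.1.comap b.repr.symm.toLinearEquiv.toLinearMap, comap_symm_mem b N.2⟩
  left_inv M := by
    apply Subtype.ext
    ext x
    change b.repr (b.repr.symm x) ∈ M.1 ↔ x ∈ M.1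
    rw [LinearIsometryEquiv.apply_symm_apply]
  right_inv N := by
    apply Subtype.ext
    ext x
    change b.repr.symm (b.repr x) ∈ N.1 ↔ x ∈ N.1
    rw [LinearIsometryEquiv.symm_apply_apply]
  map_rel_iff' := by
    intro M M'
    constructor
    · intro h x hx
      have h1 : b.repr.symm x ∈ M.1.comap b.repr.toLinearEquiv.toLinearMap := by
        change b.repr (b.repr.symm x) ∈ M.1
        rw [LinearIsometryEquiv.apply_symm_apply]
        exact hx
      have h2 := h h1
      change b.repr (b.repr.symm x) ∈ M'.1 at h2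
      rw [LinearIsometryEquiv.apply_symm_apply] at h2
      exact h2
    · intro h x hx
      exact h hx

/-- On every Hilbert space with an orthonormal basis `(b n)` indexed by the integers there is a
bounded operator `W` with `W (b n) = 2 ^ (-|n|) b (n + 1)` for all `n`, and there is an order
isomorphism `φ` from the chain `1 + *ω + ω + 1` (the integers with a least and a greatest element
adjoined) onto the lattice of all closed `W`-invariant subspaces, sending the least element to
`{0}`, the greatest one to the whole space and the integer `k` to the closed span of the `b n` with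
`n ≥ -k`. In particular the closed invariant subspaces of `W` are exactly the obvious ones. -/
theorem result (b : HilbertBasis ℤ ℂ H) :
    ∃ W : H →L[ℂ] H, IsShift b W ∧ ∃ φ : WithBot (WithTop ℤ) ≃o Lat W,
      (φ ⊥).1 = ⊥ ∧ (φ ⊤).1 = ⊤ ∧
      ∀ k : ℤ, (φ (WithBot.some (WithTop.some k))).1 = Mk b (-k) := by
  refine ⟨WH b, WH_shift b, latIso.trans (transfer b), ?_, ?_, ?_⟩
  · ext x
    change b.repr x ∈ (⊥ : Submodule ℂ (lp (fun _ : ℤ => ℂ) 2)) ↔ _
    rw [Submodule.mem_bot, Submodule.mem_bot]
    exact b.repr.map_eq_zero_iff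
  · rfl
  · intro k
    ext x
    change b.repr x ∈ P (-k) ↔ _
    rw [mem_P, mem_Mk]

end Pool.Agent.Results.MP_1e8505_an.LatShift
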